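import Mathlib

/-!
# Parity of the number of prime factors of `|n^2 + a|`

For a set `S` of primes, `omegaIn S m` counts the prime factors of `m`, with multiplicity, that lie
in `S`.  We study the parity of `omegaIn S |n^2 + a|`.
-/

set_option autoImplicit false

namespace Pool.Agent.Lib.MP_391708_nt.Parity

open Nat

open Classical in
/-- The number of prime factors of `m` (with multiplicity) lying in `S`. -/
noncomputable def omegaIn (S : Set ℕ) (m : ℕ) : ℕ :=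
  m.primeFactorsList.countP (fun p => p ∈ S)

lemma omegaIn_univ (m : ℕ) : omegaIn Set.univ m = ArithmeticFunction.cardFactors m := by
  classical
  simp [omegaIn, ArithmeticFunction.cardFactors_apply]

lemma omegaIn_primes (m : ℕ) : omegaIn {p | p.Prime} m = ArithmeticFunction.cardFactors m := by
  classical
  rw [ArithmeticFunction.cardFactors_apply, omegaIn, List.countP_eq_length]
  intro p hp
  simpa using Nat.prime_of_mem_primeFactorsList hp

lemma omegaIn_mul (S : Set ℕ) {m n : ℕ} (hm : m ≠ 0) (hn : n ≠ 0) :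
    omegaIn S (m * n) = omegaIn S m + omegaIn S n := by
  classical
  unfold omegaIn
  rw [(Nat.perm_primeFactorsList_mul hm hn).countP_eq, List.countP_append]

lemma omegaIn_prime (S : Set ℕ) {p : ℕ} (hp : p.Prime) (hS : p ∈ S) : omegaIn S p = 1 := by
  classical
  unfold omegaIn
  rw [Nat.primeFactorsList_prime hp]
  simp [hS]

lemma even_omegaIn_sq (S : Set ℕ) {m : ℕ} (hm : m ≠ 0) : Even (omegaIn S (m ^ 2)) := by
  rw [pow_two, omegaIn_mul S hm hm]; exact Even.add_self _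

/-- Evenness of `omegaIn S |m|` for an integer `m`. -/
def Ev (S : Set ℕ) (m : ℤ) : Prop := Even (omegaIn S m.natAbs)

lemma Ev_mul {S : Set ℕ} {m n : ℤ} (hm : m ≠ 0) (hn : n ≠ 0) :
    Ev S (m * n) ↔ (Ev S m ↔ Ev S n) := by
  unfold Ev
  rw [Int.natAbs_mul, omegaIn_mul S (Int.natAbs_ne_zero.2 hm) (Int.natAbs_ne_zero.2 hn),
    Nat.even_add]

lemma Ev_sq (S : Set ℕ) {m : ℤ} (hm : m ≠ 0) : Ev S (m ^ 2) := by
  unfold Ev
  rw [Int.natAbs_pow]
  exact even_omegaIn_sq S (Int.natAbs_ne_zero.2 hm)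

lemma Ev_mul_sq {S : Set ℕ} {m n : ℤ} (hm : m ≠ 0) (hn : n ≠ 0) :
    Ev S (m * n ^ 2) ↔ Ev S m := by
  rw [Ev_mul hm (pow_ne_zero 2 hn)]
  have := Ev_sq S hn
  tauto

lemma not_Ev_prime {S : Set ℕ} {p : ℕ} (hp : p.Prime) (hS : p ∈ S) : ¬ Ev S (p : ℤ) := by
  unfold Ev
  rw [Int.natAbs_natCast, omegaIn_prime S hp hS]
  decide

/-! ### Values repeat along Pell sequences -/

/-- If `n₀² + a = ℓ > 0` is not a square, then `n² + a` is `ℓ` times a nonzero square for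
arbitrarily large `n`. -/
lemma pell_repeat {a n₀ : ℤ} (hpos : 0 < n₀ ^ 2 + a) (hns : ¬ IsSquare (n₀ ^ 2 + a)) (N : ℕ) :
    ∃ n : ℕ, N ≤ n ∧ ∃ m : ℤ, m ≠ 0 ∧ (n : ℤ) ^ 2 + a = (n₀ ^ 2 + a) * m ^ 2 := by
  obtain ⟨u, v, huv, hv⟩ := Pell.exists_of_not_isSquare hpos hns
  set l := n₀ ^ 2 + a with hl
  have huv' : |u| ^ 2 - l * |v| ^ 2 = 1 := by rw [sq_abs, sq_abs]; exact huv
  have hv' : 1 ≤ |v| := Int.one_le_abs hv
  have hu' : 1 ≤ |u| := by
    refine Int.one_le_abs ?_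
    rintro rfl
    have : 0 ≤ l * v ^ 2 := by positivity
    nlinarith
  suffices h : ∀ N : ℕ, ∃ n m : ℤ, (N : ℤ) ≤ n ∧ 0 < m ∧ n ^ 2 + a = l * m ^ 2 by
    obtain ⟨n, m, hn, hm, h⟩ := h N
    have hn0 : 0 ≤ n := le_trans (by positivity) hn
    refine ⟨n.toNat, by omega, m, hm.ne', ?_⟩
    rw [Int.toNat_of_nonneg hn0]; exact h
  intro N
  induction N with
  | zero => exact ⟨|n₀|, 1, by simp, one_pos, by rw [sq_abs, hl]; ring⟩
  | succ N ih =>
    obtain ⟨n, m, hn, hm, h⟩ := ih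
    have hn0 : 0 ≤ n := le_trans (by positivity) hn
    refine ⟨|u| * n + l * |v| * m, |v| * n + |u| * m, ?_, ?_, ?_⟩
    · have h1 : n ≤ |u| * n := le_mul_of_one_le_left hn0 hu'
      have h2 : 1 ≤ l * |v| * m := by
        have : 0 < l * |v| * m := by positivity
        omega
      push_cast
      linarith
    · positivity
    · have : (|u| * n + l * |v| * m) ^ 2 + a
          = l * (|v| * n + |u| * m) ^ 2 + (|u| ^ 2 - l * |v| ^ 2) * (n ^ 2 - l * m ^ 2) + a := by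
        ring
      rw [this, huv']
      linarith

/-! ### Euclidean descent -/

lemma sq_add_ne_zero {a : ℤ} (ha : ¬ IsSquare (-a)) (n : ℤ) : n ^ 2 + a ≠ 0 := by
  intro h
  exact ha ⟨n, by linarith [sq n]⟩

lemma norm_ne_zero {a : ℤ} (ha : ¬ IsSquare (-a)) {x y : ℤ} (h : x ≠ 0 ∨ y ≠ 0) :
    x ^ 2 + a * y ^ 2 ≠ 0 := by
  intro h0
  by_cases hy : y = 0
  · subst hy
    rcases h with h | h
    · apply h
      have : x ^ 2 = 0 := by simpa using h0
      exact pow_eq_zero_iff (two_ne_zero) |>.1 this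
    · exact h rfl
  · have h1 : y ^ 2 ∣ x ^ 2 := ⟨-a, by linarith⟩
    obtain ⟨c, rfl⟩ := (Int.pow_dvd_pow_iff two_ne_zero).1 h1
    apply ha
    have h2 : y ^ 2 * (c ^ 2 + a) = 0 := by linarith
    rcases mul_eq_zero.1 h2 with h3 | h3
    · exact absurd (pow_eq_zero_iff (two_ne_zero) |>.1 h3) hy
    · exact ⟨c, by linarith [sq c]⟩

/-- If `omegaIn S (n² + a)` is even whenever `n² + a > 0`, then it is even on all positive
norms `x² + a y²`. -/
lemma descent {a : ℤ} {S : Set ℕ} (H : ∀ n : ℤ, 0 < n ^ 2 + a → Ev S (n ^ 2 + a)) :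
    ∀ (k : ℕ) (x y : ℤ), y.natAbs ≤ k → 0 < x ^ 2 + a * y ^ 2 → Ev S (x ^ 2 + a * y ^ 2) := by
  intro k
  induction k with
  | zero =>
    intro x y hy hpos
    have hy0 : y = 0 := by simpa using hy
    subst hy0
    have hx : x ≠ 0 := by
      rintro rfl
      simp at hpos
    simpa using Ev_sq S hx
  | succ k ih =>
    have main : ∀ x y : ℤ, 0 ≤ x → 0 < y → y.natAbs ≤ k + 1 → 0 < x ^ 2 + a * y ^ 2 →
        Ev S (x ^ 2 + a * y ^ 2) := by
      intro x y hx hy hyk hpos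
      set n : ℤ := -((-x) / y) with hn
      have e1 : y * ((-x) / y) + (-x) % y = -x := Int.mul_ediv_add_emod (-x) y
      have r0 : 0 ≤ (-x) % y := Int.emod_nonneg _ hy.ne'
      have r1 : (-x) % y < y := Int.emod_lt_of_pos _ hy
      have hr : y * n - x = (-x) % y := by rw [hn]; linarith
      have hnx : x ≤ y * n := by linarith
      have hn0 : 0 ≤ y * n := hx.trans hnx
      have hpos' : 0 < n ^ 2 + a := by
        have h1 : x ^ 2 ≤ (y * n) ^ 2 := by nlinarith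
        have h2 : 0 < y ^ 2 * (n ^ 2 + a) := by nlinarith
        by_contra hcon
        push Not at hcon
        have : y ^ 2 * (n ^ 2 + a) ≤ 0 := mul_nonpos_of_nonneg_of_nonpos (by positivity) hcon
        linarith
      have hid : (x ^ 2 + a * y ^ 2) * (n ^ 2 + a)
          = (x * n + a * y) ^ 2 + a * (y * n - x) ^ 2 := by ring
      have hprod : 0 < (x ^ 2 + a * y ^ 2) * (n ^ 2 + a) := mul_pos hpos hpos'
      have hih := ih (x * n + a * y) (y * n - x) (by omega) (by rw [← hid]; exact hprod)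
      rw [← hid, Ev_mul hpos.ne' hpos'.ne'] at hih
      exact hih.2 (H n hpos')
    intro x y hyk hpos
    by_cases hy : y = 0
    · exact ih x y (by simp [hy]) hpos
    have h1 : x ^ 2 + a * y ^ 2 = |x| ^ 2 + a * |y| ^ 2 := by rw [sq_abs, sq_abs]
    rw [h1] at hpos ⊢
    exact main |x| |y| (abs_nonneg x) (abs_pos.2 hy) (by rw [Int.natAbs_abs]; exact hyk) hpos

/-- If `omegaIn S (n² + a)` is even for all large `n`, then it is even on all positive norms. -/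
lemma even_norm_of_eventually {a : ℤ} {S : Set ℕ} {N : ℕ}
    (H : ∀ n : ℕ, N ≤ n → Ev S ((n : ℤ) ^ 2 + a)) {x y : ℤ}
    (hpos : 0 < x ^ 2 + a * y ^ 2) : Ev S (x ^ 2 + a * y ^ 2) := by
  refine descent (a := a) (S := S) ?_ _ x y le_rfl hpos
  intro n hn
  by_cases hsq : IsSquare (n ^ 2 + a)
  · obtain ⟨c, hc⟩ := hsq
    have hc0 : c ≠ 0 := by
      rintro rfl
      simp at hc; omega
    rw [hc, ← pow_two]
    exact Ev_sq S hc0
  · obtain ⟨n', hN, m, hm, h⟩ := pell_repeat hn hsq N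
    have := H n' hN
    rw [h, Ev_mul_sq hn.ne' hm] at this
    exact this

/-! ### A positive norm of the form `p w²` -/

/-- The bounds used in the pigeonhole argument. -/
lemma cases_k {a : ℤ} (ha0 : a ≠ 0) {A : ℕ} (hA : A = a.natAbs) {p x y z k : ℤ}
    (hx2 : x ^ 2 < A * p) (hy2 : y ^ 2 < p) (hz2 : z ^ 2 ≤ A - 1) (hpp : 0 < p)
    (hk : x ^ 2 + a * y ^ 2 - p * z ^ 2 = a * p * k) : k = 0 ∨ k = 1 := by
  have hz0 : 0 ≤ z ^ 2 := sq_nonneg z
  have hy0 : 0 ≤ y ^ 2 := sq_nonneg y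
  have hx0 : 0 ≤ x ^ 2 := sq_nonneg x
  have hpz : p * z ^ 2 ≤ p * (A - 1) := mul_le_mul_of_nonneg_left hz2 hpp.le
  have hpz0 : 0 ≤ p * z ^ 2 := by positivity
  have hA0 : 0 < A := by rw [hA]; exact Int.natAbs_pos.2 ha0
  have hA1 : (0 : ℤ) < A := by exact_mod_cast hA0
  have hAp : (0 : ℤ) < A * p := by positivity
  have hAy : (A : ℤ) * y ^ 2 < A * p := mul_lt_mul_of_pos_left hy2 hA1
  have hAy0 : (0 : ℤ) ≤ A * y ^ 2 := by positivity
  have hcomm : p * ((A : ℤ) - 1) = A * p - p := by ring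
  rcases lt_or_gt_of_ne ha0 with hneg | hposa
  · have hAa : a = -(A : ℤ) := by
      rw [hA, Int.ofNat_natAbs_of_nonpos hneg.le]; ring
    have h3 : x ^ 2 + a * y ^ 2 - p * z ^ 2 = x ^ 2 - A * y ^ 2 - p * z ^ 2 := by rw [hAa]; ring
    have h4 : a * p * k = -(A * p * k) := by rw [hAa]; ring
    rw [h3, h4] at hk
    have h5 : (A : ℤ) * p * k < A * p * 2 := by linarith
    have h6 : (A : ℤ) * p * (-1) < A * p * k := by linarith
    have h7 : k < 2 := lt_of_mul_lt_mul_left h5 hAp.le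
    have h8 : -1 < k := lt_of_mul_lt_mul_left h6 hAp.le
    omega
  · have hAa : a = (A : ℤ) := by rw [hA, Int.natAbs_of_nonneg hposa.le]
    rw [hAa] at hk
    have h5 : (A : ℤ) * p * k < A * p * 2 := by linarith
    have h6 : (A : ℤ) * p * (-1) < A * p * k := by linarith
    have h7 : k < 2 := lt_of_mul_lt_mul_left h5 hAp.le
    have h8 : -1 < k := lt_of_mul_lt_mul_left h6 hAp.le
    omega

/-- For a prime `p ≡ 1 mod 4|a|` the equation `X² + a Y² = p w²` has a solution with `w ≠ 0`. -/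
lemma exists_norm_eq_prime_mul_sq {a : ℤ} (ha : ¬ IsSquare (-a)) {p : ℕ} (hp : p.Prime)
    (hmod : p ≡ 1 [MOD 4 * a.natAbs]) :
    ∃ X Y w : ℤ, w ≠ 0 ∧ X ^ 2 + a * Y ^ 2 = p * w ^ 2 := by
  have : Fact p.Prime := ⟨hp⟩
  have ha0 : a ≠ 0 := by
    rintro rfl
    exact ha ⟨0, by simp⟩
  set A := a.natAbs with hA
  have hApos : 0 < A := Int.natAbs_pos.2 ha0
  have hple : 4 * A < p := by
    by_contra hcon
    push Not at hcon
    have h1 : p % (4 * A) = 1 % (4 * A) := hmod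
    rw [Nat.mod_eq_of_lt (show 1 < 4 * A by omega)] at h1
    rcases Nat.lt_or_eq_of_le hcon with h2 | h2
    · rw [Nat.mod_eq_of_lt h2] at h1
      exact hp.one_lt.ne' h1
    · rw [h2] at h1; simp at h1
  have hodd : Odd p := hp.odd_of_ne_two (by omega)
  -- `-a` is a square modulo `p`
  have hja : jacobiSym (-a) p = 1 := by
    rw [jacobiSym.mod_right (-a) hodd, Int.natAbs_neg, ← hA]
    have h1 : p % (4 * A) = 1 := by
      have h1 : p % (4 * A) = 1 % (4 * A) := hmod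
      rwa [Nat.mod_eq_of_lt (show 1 < 4 * A by omega)] at h1
    rw [h1, jacobiSym.one_right]
  have hpa : ¬ (p : ℤ) ∣ a := by
    intro h
    have h1 : p ∣ A := by rw [hA]; exact Int.natCast_dvd.1 h
    have := Nat.le_of_dvd hApos h1
    omega
  have hne : ((-a : ℤ) : ZMod p) ≠ 0 := by
    intro h
    rw [ZMod.intCast_zmod_eq_zero_iff_dvd] at h
    exact hpa (by simpa using h)
  have hsq : IsSquare ((-a : ℤ) : ZMod p) := by
    rw [← legendreSym.eq_one_iff p hne, jacobiSym.legendreSym.to_jacobiSym, hja]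
  obtain ⟨r, hr⟩ := hsq
  -- pigeonhole
  set X := Nat.sqrt (A * p) with hX
  set Y := Nat.sqrt p with hY
  set Z := Nat.sqrt (A - 1) with hZ
  have : NeZero A := ⟨hApos.ne'⟩
  let s : Finset (ℕ × ℕ × ℕ) :=
    Finset.range (X + 1) ×ˢ (Finset.range (Y + 1) ×ˢ Finset.range (Z + 1))
  let t : Finset (ZMod A × ZMod p) := Finset.univ
  let f : ℕ × ℕ × ℕ → ZMod A × ZMod p :=
    fun q => ((q.1 : ZMod A) - (q.2.2 : ZMod A), (q.1 : ZMod p) - r * (q.2.1 : ZMod p))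
  have hcard : t.card < s.card := by
    have h1 : t.card = A * p := by
      simp [t, Finset.card_univ, ZMod.card]
    have h2 : s.card = (X + 1) * ((Y + 1) * (Z + 1)) := by
      simp [s, Finset.card_product]
    rw [h1, h2]
    have hX1 : A * p < (X + 1) ^ 2 := Nat.lt_succ_sqrt' (A * p)
    have hY1 : p < (Y + 1) ^ 2 := Nat.lt_succ_sqrt' p
    have hZ1 : A - 1 < (Z + 1) ^ 2 := Nat.lt_succ_sqrt' (A - 1)
    have hZ2 : A ≤ (Z + 1) ^ 2 := by omega
    have h3 : (A * p) ^ 2 < ((X + 1) * ((Y + 1) * (Z + 1))) ^ 2 := by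
      calc (A * p) ^ 2 = (A * p) * (p * A) := by ring
        _ < (X + 1) ^ 2 * ((Y + 1) ^ 2 * (Z + 1) ^ 2) := by
          apply Nat.mul_lt_mul_of_lt_of_le hX1 (Nat.mul_le_mul hY1.le hZ2)
          positivity
        _ = ((X + 1) * ((Y + 1) * (Z + 1))) ^ 2 := by ring
    exact lt_of_pow_lt_pow_left₀ 2 (by positivity) h3
  obtain ⟨q₁, hq₁, q₂, hq₂, hne12, hf⟩ :=
    Finset.exists_ne_map_eq_of_card_lt_of_maps_to hcard (f := f) (fun _ _ => Finset.mem_univ _)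
  obtain ⟨x₁, y₁, z₁⟩ := q₁
  obtain ⟨x₂, y₂, z₂⟩ := q₂
  simp only [s, Finset.mem_product, Finset.mem_range] at hq₁ hq₂
  simp only [f, Prod.mk.injEq] at hf
  obtain ⟨hf1, hf2⟩ := hf
  set x : ℤ := (x₁ : ℤ) - x₂ with hx
  set y : ℤ := (y₁ : ℤ) - y₂ with hy
  set z : ℤ := (z₁ : ℤ) - z₂ with hz
  have hxX : |x| ≤ X := by rw [abs_le]; constructor <;> omega
  have hyY : |y| ≤ Y := by rw [abs_le]; constructor <;> omega
  have hzZ : |z| ≤ Z := by rw [abs_le]; constructor <;> omega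
  have hnz : ¬ (x = 0 ∧ y = 0 ∧ z = 0) := by
    rintro ⟨h1, h2, h3⟩
    apply hne12
    have e1 : x₁ = x₂ := by omega
    have e2 : y₁ = y₂ := by omega
    have e3 : z₁ = z₂ := by omega
    rw [e1, e2, e3]
  have hx2 : x ^ 2 ≤ A * p := by
    have h1 : x ^ 2 ≤ (X : ℤ) ^ 2 := sq_le_sq' (by linarith [abs_le.1 hxX]) (abs_le.1 hxX).2
    have h2 : (X : ℤ) ^ 2 ≤ A * p := by exact_mod_cast Nat.sqrt_le' (A * p)
    linarith
  have hy2 : y ^ 2 ≤ p := by
    have h1 : y ^ 2 ≤ (Y : ℤ) ^ 2 := sq_le_sq' (by linarith [abs_le.1 hyY]) (abs_le.1 hyY).2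
    have h2 : (Y : ℤ) ^ 2 ≤ p := by exact_mod_cast Nat.sqrt_le' p
    linarith
  have hz2 : z ^ 2 ≤ A - 1 := by
    have h1 : z ^ 2 ≤ (Z : ℤ) ^ 2 := sq_le_sq' (by linarith [abs_le.1 hzZ]) (abs_le.1 hzZ).2
    have h2 : ((Z ^ 2 : ℕ) : ℤ) ≤ ((A - 1 : ℕ) : ℤ) := by exact_mod_cast Nat.sqrt_le' (A - 1)
    push_cast [Nat.cast_sub (show 1 ≤ A from hApos)] at h2
    linarith
  have hpprime : Prime (p : ℤ) := Nat.prime_iff_prime_int.1 hp
  have hy2' : y ^ 2 < p := by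
    refine lt_of_le_of_ne hy2 ?_
    intro h
    have h1 : (p : ℤ) ∣ y := hpprime.dvd_of_dvd_pow (n := 2) (by rw [h])
    obtain ⟨c, hc⟩ := h1
    rw [hc] at h
    have hp0 : (p : ℤ) ≠ 0 := hpprime.ne_zero
    have h2 : (p : ℤ) * (p * c ^ 2 - 1) = 0 := by linarith [mul_pow (p : ℤ) c 2, sq (p : ℤ)]
    rcases mul_eq_zero.1 h2 with h3 | h3
    · exact hp0 h3
    · exact hpprime.not_isUnit (isUnit_of_dvd_one ⟨c ^ 2, by linarith⟩)
  have hx2' : x ^ 2 < A * p := by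
    refine lt_of_le_of_ne hx2 ?_
    intro h
    have h1 : (p : ℤ) ∣ x := hpprime.dvd_of_dvd_pow (n := 2) (by rw [h]; exact Dvd.intro_left _ rfl)
    obtain ⟨c, hc⟩ := h1
    rw [hc] at h
    have hp0 : (p : ℤ) ≠ 0 := hpprime.ne_zero
    have h2 : (p : ℤ) * (p * c ^ 2 - A) = 0 := by linarith [mul_pow (p : ℤ) c 2, sq (p : ℤ)]
    rcases mul_eq_zero.1 h2 with h3 | h3
    · exact hp0 h3
    · apply hpa
      have h4 : (p : ℤ) ∣ (A : ℤ) := ⟨c ^ 2, by linarith⟩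
      rw [hA, Int.dvd_natAbs] at h4
      exact h4
  -- divisibility
  have hdA : (A : ℤ) ∣ x - z := by
    rw [← ZMod.intCast_zmod_eq_zero_iff_dvd]
    push_cast [hx, hz]
    linear_combination hf1
  have hda : a ∣ x - z := by rw [← Int.natAbs_dvd]; exact hdA
  have hdp : (p : ℤ) ∣ x ^ 2 + a * y ^ 2 := by
    rw [← ZMod.intCast_zmod_eq_zero_iff_dvd]
    have h1 : (x : ZMod p) = r * (y : ZMod p) := by
      push_cast [hx, hy]
      linear_combination hf2
    push_cast at hr ⊢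
    rw [h1]
    have h2 : (a : ZMod p) = -(r * r) := by rw [← hr]; ring
    rw [h2]; ring
  have hdp' : (p : ℤ) ∣ x ^ 2 + a * y ^ 2 - p * z ^ 2 := dvd_sub hdp (Dvd.intro _ rfl)
  have hp1a : a ∣ (p : ℤ) - 1 := by
    have h1 : ((4 * A : ℕ) : ℤ) ∣ (p : ℤ) - 1 := by
      have := (Nat.modEq_iff_dvd.1 hmod.symm)
      simpa using this
    have h2 : (A : ℤ) ∣ (p : ℤ) - 1 := dvd_trans ⟨4, by push_cast; ring⟩ h1
    rw [← Int.natAbs_dvd]; exact h2
  have hda' : a ∣ x ^ 2 + a * y ^ 2 - p * z ^ 2 := by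
    have h1 : x ^ 2 + a * y ^ 2 - p * z ^ 2
        = (x - z) * (x + z) + a * y ^ 2 - (p - 1) * z ^ 2 := by ring
    rw [h1]
    exact dvd_sub (dvd_add (hda.mul_right _) (Dvd.intro _ rfl)) (hp1a.mul_right _)
  have hcop : IsCoprime a (p : ℤ) := ((Prime.coprime_iff_not_dvd hpprime).2 hpa).symm
  obtain ⟨k, hk⟩ := hcop.mul_dvd hda' hdp'
  -- bounds
  have hk01 : k = 0 ∨ k = 1 :=
    cases_k ha0 hA hx2' hy2' hz2 (by exact_mod_cast hp.pos) hk
  rcases hk01 with rfl | rfl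
  · have hk' : x ^ 2 + a * y ^ 2 = p * z ^ 2 := by linarith
    refine ⟨x, y, z, ?_, hk'⟩
    rintro h0
    rw [h0] at hk'
    have h1 : ¬ (x ≠ 0 ∨ y ≠ 0) := fun h => norm_ne_zero ha h (by simpa using hk')
    push Not at h1
    exact hnz ⟨h1.1, h1.2, h0⟩
  · refine ⟨x * z - a * y, x + y * z, z ^ 2 + a, sq_add_ne_zero ha z, ?_⟩
    have hk' : x ^ 2 + a * y ^ 2 = p * (z ^ 2 + a) := by linarith
    calc (x * z - a * y) ^ 2 + a * (x + y * z) ^ 2 = (x ^ 2 + a * y ^ 2) * (z ^ 2 + a) := by ring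
      _ = p * (z ^ 2 + a) ^ 2 := by rw [hk']; ring

end Pool.Agent.Lib.MP_391708_nt.Parity
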